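import Pool.Agent.Helper37.EF.Chk

set_option maxRecDepth 100000

namespace Pool.Agent.Helper37.EF
open T

def a2_0 : Al 2 := ⟨0x1bc4103b, [0x200000800002004008010020040000000000400000, 0x20040080000000000001000000000000000000080100200000801], by decide +kernel⟩
def a2_1 : Al 2 := ⟨0x1bd40c2b, [0x200000000002004008010020040000100000400000, 0x20040080000000400001000000000000000000080000200000801], by decide +kernel⟩
def a2_2 : Al 2 := ⟨0x14321bcd, [0x20040080000000000801000004000000000000080100000000800, 0x400000002000008010020040000000200400001], by decide +kernel⟩
def a2_3 : Al 2 := ⟨0x27a81857, [0x400001002004008010020000080000200000000, 0x40080000200000800000000000000000040000100000400801], by decide +kernel⟩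
def a2_4 : Al 2 := ⟨0x27a0185f, [0x400801002004008010020000080000000000000, 0x40080000200000000000000000000000040000100200400801], by decide +kernel⟩
def a2_5 : Al 2 := ⟨0x278c1873, [0x200400000002004008010020000000000200400000, 0x40080000000000801000000000000000040080100000000801], by decide +kernel⟩
def a2_6 : Al 2 := ⟨0x2784187b, [0x200400800002004008010020000000000000400000, 0x40080000000000001000000000000000040080100200000801], by decide +kernel⟩
def a2_7 : Al 2 := ⟨0x15a01a5f, [0x20000000000000400801002004000010020000080000000000000, 0x40080000000000000000000008000000040000100200400801], by decide +kernel⟩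
def a2_8 : Al 2 := ⟨0x19c4263b, [0x200400800002004000010020040000000000400000, 0x40080000000000001000000008000000000080100200000801], by decide +kernel⟩
def a2_9 : Al 2 := ⟨0x1d801a7f, [0x20000000000200400801002004000010020000000000000000000, 0x40000000000000000000000008000000040080100200400801], by decide +kernel⟩
def a2_10 : Al 2 := ⟨0x1d80167f, [0x20000000100000400801002004000010020000000000000000000, 0x40000000000000000000000008000000040080100200400801], by decide +kernel⟩
def a2_11 : Al 2 := ⟨0x23a0185f, [0x400801002004008010020000080000000000000, 0x20000080000200000000000000000000000040000100200400801], by decide +kernel⟩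
def a2_12 : Al 2 := ⟨0x21001eff, [0x20000000100200400801002004000010000000000000000000000], by decide +kernel⟩

def t2 : T 2 :=
(c a2_0 0x1000 (c a2_1 0x1000041081040 (c a2_2 0x1000081101040000045046081 n
n)
(c a2_3 0x1000000043081 (c a2_4 0x1000001044081 (c a2_5 0x1000002041 (c a2_6 0x1000003041 (c a2_7 0x1000 (c a2_8 0x1000001202040001041 n
(c a2_9 0x1000 (c a2_10 0x1000001040001041 n
(c a2_11 0x1000000041 (c a2_12 0x40001041 n
n)
n))
n))
n)
n)
n)
n)
n))
n)

theorem top2 : top t2 = true := by decide +kernel

end Pool.Agent.Helper37.EF
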