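import Mathlib

/-! Checker for certificates that a fixed graph on ten vertices has connected
EF1outer allocations for all common additive valuations. -/

namespace Pool.Agent.Helper37.EF

/-- forces the evaluation of `x`. -/
noncomputable def frc {α : Type} (x : Nat) (f : Nat → α) : α :=
  Nat.rec (motive := fun _ => α) (f 0) (fun m _ => f (Nat.succ m)) x

noncomputable def andb (x y : Bool) : Bool := Bool.rec (motive := fun _ => Bool) false y x

noncomputable def orb (x y : Bool) : Bool := Bool.rec (motive := fun _ => Bool) y true x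

/-- bit `m` is set iff the vertex set with mask `m` is nonempty and connected. -/
def CONN : Nat := 0xfffffffff0f0f0f0fffffffff0fff0ff00000000000000000000000000000000fffffffff0f0f0f0fffffffff0fff0fffffffffff0f0f0f0fffffffff0fff0ffccccddddc0c0d0d0ccccddddc0ccd0dd00000000000000000000000000000001ccccddddc0c0d0d0ccccddddc0ccd0ddccccddddc0c0d0d1ccccddddc0cdd1de

def M110 : Nat := 0x3fffffffffffffffffffffffffff
def M220 : Nat := 0xfffffffffffffffffffffffffffffffffffffffffffffffffffffff
def MASK : Nat := 0x2004008010020040080100200400

/-- spreads the ten low bits of `m` to digits in base `2048`. -/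
def spr (m : Nat) : Nat := Nat.land (Nat.mul m 0x40100401004010040100401) 0x8010020040080100200400801

noncomputable def chk (X : Nat) : Bool :=
  andb (Nat.ble (Nat.shiftRight X 110) (Nat.land X M110))
    (Nat.beq (Nat.land (Nat.sub (Nat.land X M110) (Nat.shiftRight X 110)) MASK) 0)

noncomputable def far (H : Nat) (k : Nat → Bool) (fuel : Nat) : Nat → Nat → Bool :=
  Nat.rec (motive := fun _ => Nat → Nat → Bool) (fun _ _ => false)
    (fun _ ih s X =>
      Nat.rec (motive := fun _ => Bool)
        (andb (chk X) (k (Nat.shiftRight s 12)))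
        (fun _ _ => ih (Nat.shiftRight s 12)
          (Nat.add X (Nat.mul (Nat.land s 63)
            (Nat.land (Nat.shiftRight H (Nat.mul 220 (Nat.land (Nat.shiftRight s 6) 63))) M220))))
        (Nat.land s 4095)) fuel

noncomputable def step (H : Nat) (k : Nat → List Nat → Nat → Bool) (fin : Bool) (ps : List Nat) : Nat → Bool :=
  List.rec (motive := fun _ => Nat → Bool) (fun _ => fin)
    (fun c rest ih s => Nat.rec (motive := fun _ => Bool) (k c rest (Nat.shiftRight s 6))
      (fun _ _ => far H ih 15 (Nat.shiftRight s 6) (Nat.mul (Nat.land s 63) c)) (Nat.land s 63)) ps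

def rem (A o : Nat) : Nat := Nat.xor A (Nat.shiftLeft 1 o)

def tb (a i : Nat) : Bool := Nat.beq (Nat.land (Nat.shiftRight a i) 1) 1

noncomputable def valid (K : Nat) : Nat → Nat → Bool :=
  Nat.rec (motive := fun _ => Nat → Nat → Bool) (fun _ acc => Nat.beq acc 1023)
    (fun _ ih s acc => frc (Nat.land s 1023) fun A => frc (Nat.land (Nat.shiftRight s 10) 63) fun o =>
      andb (Nat.beq (Nat.land acc A) 0) (andb (tb CONN A) (andb (tb A o) (andb
      (frc (rem A o) fun R => orb (Nat.beq R 0) (tb CONN R))
        (frc (Nat.lor acc A) fun acc' => ih (Nat.shiftRight s 16) acc'))))) K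

noncomputable def row (K : Nat) : Nat → Nat → Nat → List Nat → List Nat :=
  Nat.rec (motive := fun _ => Nat → Nat → Nat → List Nat → List Nat) (fun _ _ _ tl => tl)
    (fun _ ih s A R tl => frc (Nat.land s 1023) fun B =>
      Bool.rec (motive := fun _ => List Nat) (frc (Nat.add (spr B) R) fun c => c :: ih (Nat.shiftRight s 16) A R tl)
       (ih (Nat.shiftRight s 16) A R tl) (Nat.beq B A)) K

noncomputable def prs (K0 s0 : Nat) (K : Nat) : Nat → List Nat :=
  Nat.rec (motive := fun _ => Nat → List Nat) (fun _ => [])
    (fun _ ih s => frc (Nat.land s 1023) fun A => frc (rem A (Nat.land (Nat.shiftRight s 10) 63)) fun R =>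
      Bool.rec (motive := fun _ => List Nat)
       (frc (Nat.shiftLeft (spr R) 110) fun R' => row K0 s0 A R' (ih (Nat.shiftRight s 16)))
       (ih (Nat.shiftRight s 16)) (Nat.beq R 0)) K

/-- push `c` -/
def push (H c : Nat) : Nat := Nat.lor (Nat.shiftLeft H 220) c
/-- swap -/
def swp (c : Nat) : Nat := Nat.lor (Nat.shiftLeft (Nat.land c M110) 110) (Nat.shiftRight c 110)

noncomputable def eqL (l : List Nat) : List Nat → Bool :=
  List.rec (motive := fun _ => List Nat → Bool)
    (fun m => List.rec (motive := fun _ => Bool) true (fun _ _ _ => false) m)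
    (fun a _ ih m => List.rec (motive := fun _ => Bool) false (fun b m' _ => andb (Nat.beq a b) (ih m')) m) l

noncomputable def chkAl (K code : Nat) (ps : List Nat) : Bool :=
  andb (valid K code 0) (eqL (prs K code K code) ps)

structure Al (K : Nat) where
  code : Nat
  ps : List Nat
  ok : chkAl K code ps = true

/-- Certificate trees. -/
inductive T (K : Nat) : Type
  | n : T K
  | c : Al K → Nat → T K → T K → T K

noncomputable def run {K : Nat} (t : T K) : Nat → List Nat → Nat → Bool :=
  T.rec (motive := fun _ => Nat → List Nat → Nat → Bool)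
    (fun H ps s => step H (fun _ _ _ => false) true ps s)
    (fun a s0 _ _ ik is H ps s => step H (fun c rest s1 =>
      andb (frc (push H c) fun H' => ik H' a.ps s0) (frc (push H (swp c)) fun H' => is H' rest s1)) false ps s) t

def frm (P N : Nat) : Nat := Nat.lor (Nat.shiftLeft (spr N) 110) (spr P)

def H0 : Nat :=
  push (push (push (push (push 0 (frm 1 16)) (frm 8 64)) (frm 2 512)) (frm 4 32)) (frm 16 64)

noncomputable def top {K : Nat} : T K → Bool
  | .n => false
  | .c a s kids _ => run kids H0 a.ps s

end Pool.Agent.Helper37.EF
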