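import Pool.Agent.Helper37.EF.Snd3

namespace Pool.Agent.Helper37.EF
open Finset

def adjm : Fin 10 → ℕ := ![514, 693, 746, 36, 514, 718, 36, 806, 128, 183]

/-- the graph -/
def G : SimpleGraph (Fin 10) where
  Adj i j := (adjm i).testBit j = true
  symm := ⟨by decide⟩
  loopless := ⟨by decide⟩

instance : DecidableRel G.Adj := fun i j => inferInstanceAs (Decidable ((adjm i).testBit j = true))

lemma G_adj (i j : Fin 10) : G.Adj i j ↔ (adjm i).testBit j = true := Iff.rfl

def toF (m : ℕ) : Finset (Fin 10) := univ.filter (fun i => m.testBit i = true)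

lemma mem_toF (m : ℕ) (i : Fin 10) : i ∈ toF m ↔ m.testBit i = true := by simp [toF]

/-- connected share -/
def Cn (S : Finset (Fin 10)) : Prop := (G.induce (S : Set (Fin 10))).Connected

lemma tb_eq (m i : ℕ) : tb m i = m.testBit i := by
  unfold tb
  rw [Nat.testBit_eq_decide_div_mod_eq, shr_eq]
  have : Nat.land (m / 2 ^ i) 1 = m / 2 ^ i % 2 := Nat.and_one_is_mod _
  rw [this]
  rcases Nat.mod_two_eq_zero_or_one (m / 2 ^ i) with h | h <;> rw [h] <;> rfl

lemma rem_eq (A o : ℕ) : rem A o = A ^^^ 2 ^ o := by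
  unfold rem
  change A ^^^ (1 <<< o) = _
  rw [Nat.one_shiftLeft]

lemma toF_rem (A : ℕ) (o : Fin 10) (h : A.testBit o = true) : toF (rem A o) = (toF A).erase o := by
  ext i
  rw [mem_erase, mem_toF, mem_toF, rem_eq, Nat.testBit_xor, Nat.testBit_two_pow]
  by_cases hi : i = o
  · subst hi; simp [h]
  · have : ¬ ((o : ℕ) = (i : ℕ)) := fun hh => hi (Fin.ext hh.symm)
    simp [this, hi]

lemma toF_zero : toF 0 = ∅ := by ext i; simp [mem_toF]

lemma conn_table : (List.range 1024).all (fun m => !tb CONN m || (List.finRange 10).any (fun o =>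
    tb m o && (Nat.beq (rem m o) 0 || (tb CONN (rem m o) && (Nat.ble (rem m o + 1) m &&
      !(Nat.beq (Nat.land (adjm o) (rem m o)) 0)))))) = true := by
  decide +kernel

lemma Cn_singleton (o : Fin 10) : Cn {o} := by
  unfold Cn
  rw [coe_singleton]
  exact { preconnected := fun x y => by
            have : x = y := Subtype.ext (x.2.trans y.2.symm)
            rw [this],
          nonempty := ⟨⟨o, rfl⟩⟩ }

lemma Cn_insert (S : Finset (Fin 10)) (o j : Fin 10) (hS : Cn S) (hj : j ∈ S) (ha : G.Adj o j) :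
    Cn (insert o S) := by
  unfold Cn at *
  have h1 := SimpleGraph.induce_pair_connected_of_adj ha
  have h2 : (G.induce (({o, j} : Set (Fin 10)) ∪ (S : Set (Fin 10)))).Connected :=
    SimpleGraph.induce_union_connected h1.preconnected hS.preconnected ⟨j, by simp, hj⟩
  have h3 : (({o, j} : Set (Fin 10)) ∪ (S : Set (Fin 10))) = ((insert o S : Finset (Fin 10)) : Set (Fin 10)) := by
    ext x
    simp only [Set.mem_union, Set.mem_insert_iff, Set.mem_singleton_iff, coe_insert, mem_coe]
    constructor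
    · rintro ((h | h) | h)
      · exact Or.inl h
      · exact Or.inr (h ▸ hj)
      · exact Or.inr h
    · rintro (h | h)
      · exact Or.inl (Or.inl h)
      · exact Or.inr h
  rw [← h3]
  exact h2

lemma adjm_lt : ∀ o, adjm o < 2 ^ 10 := by decide

lemma conn_sound : ∀ m < 1024, tb CONN m = true → Cn (toF m) := by
  intro m
  induction m using Nat.strong_induction_on with
  | _ m ih =>
    intro hm hc
    have h := conn_table
    rw [List.all_eq_true] at h
    have h1 := h m (List.mem_range.2 hm)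
    rw [hc] at h1
    simp only [Bool.not_true, Bool.false_or, List.any_eq_true, Bool.and_eq_true, Bool.or_eq_true] at h1
    obtain ⟨o, -, ho, h2⟩ := h1
    rw [tb_eq] at ho
    have hmem : o ∈ toF m := (mem_toF _ _).2 ho
    have hins : toF m = insert o (toF (rem m o)) := by
      rw [toF_rem m o ho, insert_erase hmem]
    rcases h2 with h2 | ⟨h2, h3, h4⟩
    · have h2' := Nat.eq_of_beq_eq_true h2
      rw [hins, h2', toF_zero]
      exact Cn_singleton o
    · have h3' := Nat.le_of_ble_eq_true h3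
      have hc' := ih (rem m o) (by omega) (by omega) h2
      have hne : Nat.land (adjm o) (rem m o) ≠ 0 := fun he => by rw [he] at h4; simp at h4
      have hne' : (adjm o) &&& (rem m o) ≠ 0 := hne
      obtain ⟨i, hi⟩ := Nat.exists_testBit_of_ne_zero hne'
      rw [Nat.testBit_and, Bool.and_eq_true] at hi
      have hi10 : i < 10 := by
        by_contra hge
        have : (adjm o) < 2 ^ i := by
          calc adjm o < 2 ^ 10 := adjm_lt o
            _ ≤ 2 ^ i := Nat.pow_le_pow_right (by norm_num) (by omega)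
        rw [Nat.testBit_lt_two_pow this] at hi
        exact absurd hi.1 (by simp)
      rw [hins]
      exact Cn_insert _ o ⟨i, hi10⟩ hc' ((mem_toF _ _).2 hi.2) hi.1

/-- good allocations exist for `w` with `n` agents -/
def Good (n : ℕ) (w : Fin 10 → ℝ) : Prop :=
  ∃ A : Fin n → Finset (Fin 10), (∀ i j, i ≠ j → Disjoint (A i) (A j)) ∧ (∀ x, ∃ i, x ∈ A i) ∧
    (∀ i, A i = ∅ ∨ Cn (A i)) ∧ ∀ i j, (∑ x ∈ A j, w x) ≤ (∑ x ∈ A i, w x) ∨
      ∃ o ∈ A j, ((A j).erase o = ∅ ∨ Cn ((A j).erase o)) ∧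
        (∑ x ∈ (A j).erase o, w x) ≤ (∑ x ∈ A i, w x)

lemma sum_toF (w : Fin 10 → ℝ) (m : ℕ) : ∑ x ∈ toF m, w x = ev w (bt m) := by
  unfold toF ev bt
  rw [sum_filter]
  apply sum_congr rfl
  intro i _
  cases m.testBit i <;> simp

lemma pl_lt : ∀ (K s : ℕ), ∀ x ∈ pl K s, x.1 < 1024 := by
  intro K
  induction K with
  | zero => intro s x hx; simp [pl] at hx
  | succ K ih =>
    intro s x hx
    rw [pl, List.mem_cons] at hx
    rcases hx with hx | hx
    · rw [hx]
      have : Nat.land s 1023 ≤ 1023 := by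
        change s &&& 1023 ≤ 1023; exact Nat.and_le_right
      exact Nat.lt_succ_of_le this
    · exact ih _ x hx

lemma VL_all : ∀ (L : List (ℕ × ℕ)) (acc : ℕ), VL L acc →
    (∀ x ∈ L, acc &&& x.1 = 0) ∧ L.Pairwise (fun x y => x.1 &&& y.1 = 0) ∧
    (∀ i < 10, acc.testBit i = true ∨ ∃ x ∈ L, x.1.testBit i = true) ∧
    (∀ x ∈ L, tb CONN x.1 = true ∧ tb x.1 x.2 = true ∧ (rem x.1 x.2 = 0 ∨ tb CONN (rem x.1 x.2) = true)) := by
  intro L
  induction L with
  | nil =>
    intro acc h
    have h' : acc = 1023 := h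
    refine ⟨by simp, by simp, ?_, by simp⟩
    intro i hi
    left
    rw [h']
    interval_cases i <;> rfl
  | cons x L ih =>
    intro acc h
    obtain ⟨h1, h2, h3, h4, h5⟩ := h
    obtain ⟨i1, i2, i3, i4⟩ := ih _ h5
    have key : ∀ y ∈ L, acc &&& y.1 = 0 ∧ x.1 &&& y.1 = 0 := by
      intro y hy
      have := i1 y hy
      rw [Nat.and_or_distrib_right] at this
      exact Nat.or_eq_zero_iff.1 this
    refine ⟨?_, ?_, ?_, ?_⟩
    · intro y hy
      rcases List.mem_cons.1 hy with hy | hy
      · rw [hy]; exact h1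
      · exact (key y hy).1
    · exact List.Pairwise.cons (fun y hy => (key y hy).2) i2
    · intro i hi
      rcases i3 i hi with h | ⟨y, hy, h⟩
      · rw [Nat.testBit_or, Bool.or_eq_true] at h
        rcases h with h | h
        · exact Or.inl h
        · exact Or.inr ⟨x, by simp, h⟩
      · exact Or.inr ⟨y, by simp [hy], h⟩
    · intro y hy
      rcases List.mem_cons.1 hy with hy | hy
      · rw [hy]; exact ⟨h2, h3, h4⟩
      · exact i4 y hy

lemma out_lt (x : ℕ × ℕ) (h1 : x.1 < 1024) (h2 : tb x.1 x.2 = true) : x.2 < 10 := by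
  by_contra hge
  rw [tb_eq, Nat.testBit_lt_two_pow] at h2
  · simp at h2
  · calc x.1 < 2 ^ 10 := by simpa using h1
      _ ≤ 2 ^ x.2 := Nat.pow_le_pow_right (by norm_num) (by omega)

lemma rem_lt (x : ℕ × ℕ) (h1 : x.1 < 1024) (h2 : x.2 < 10) : rem x.1 x.2 < 1024 := by
  rw [rem_eq]
  have e : (1024 : ℕ) = 2 ^ 10 := by norm_num
  rw [e] at h1 ⊢
  exact Nat.xor_lt_two_pow h1 (Nat.pow_lt_pow_right (by norm_num) h2)

lemma al_facts {K : ℕ} (a : Al K) : VL (pl K a.code) 0 ∧ prs K a.code K a.code = a.ps := by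
  have h := a.ok
  unfold chkAl at h
  rw [andb_true] at h
  exact ⟨valid_sound _ _ _ h.1, eqL_sound _ _ h.2⟩

lemma al_R {K : ℕ} (a : Al K) : ∀ c ∈ a.ps, Rp c := by
  obtain ⟨h1, h2⟩ := al_facts a
  obtain ⟨-, -, -, h3⟩ := VL_all _ _ h1
  intro c hc
  rw [← h2, prs_mem] at hc
  obtain ⟨y, hy, -, x, hx, -, hce⟩ := hc
  have hy1 := pl_lt _ _ y hy
  rw [hce]
  exact Rp_spr _ _ (pl_lt _ _ x hx) (rem_lt y hy1 (out_lt y hy1 (h3 y hy).2.1))

lemma al_good {K : ℕ} (a : Al K) (w : Fin 10 → ℝ) (hw : ∀ i, 0 ≤ w i) (hc : ∀ c ∈ a.ps, Cl w c) :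
    Good K w := by
  obtain ⟨h1, h2⟩ := al_facts a
  obtain ⟨-, hpw, hcov, hall⟩ := VL_all _ _ h1
  have hlen := pl_len K a.code
  set L := pl K a.code with hL
  have hget : ∀ i : Fin K, (i : ℕ) < L.length := fun i => by rw [hlen]; exact i.2
  let x : Fin K → ℕ × ℕ := fun i => L[(i : ℕ)]'(hget i)
  have hxL : ∀ i, x i ∈ L := fun i => List.getElem_mem _
  have hx1 : ∀ i, (x i).1 < 1024 := fun i => pl_lt _ _ _ (hxL i)
  have hx2 : ∀ i, (x i).2 < 10 := fun i => out_lt _ (hx1 i) (hall _ (hxL i)).2.1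
  have hand : ∀ i j, i ≠ j → (x i).1 &&& (x j).1 = 0 := by
    intro i j hij
    rw [List.pairwise_iff_getElem] at hpw
    rcases lt_or_gt_of_ne hij with h | h
    · exact hpw i j (hget i) (hget j) h
    · rw [Nat.and_comm]; exact hpw j i (hget j) (hget i) h
  have hne : ∀ i, (x i).1 ≠ 0 := by
    intro i h0
    have := (hall _ (hxL i)).2.1
    rw [h0, tb_eq] at this
    simp at this
  refine ⟨fun i => toF (x i).1, ?_, ?_, ?_, ?_⟩
  · intro i j hij
    rw [Finset.disjoint_left]
    intro z hz1 hz2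
    rw [mem_toF] at hz1 hz2
    have h3 := hand i j hij
    have h4 : ((x i).1 &&& (x j).1).testBit z = true := by rw [Nat.testBit_and, hz1, hz2]; rfl
    rw [h3] at h4
    simp at h4
  · intro z
    rcases hcov z z.2 with h | ⟨y, hy, h⟩
    · simp at h
    · obtain ⟨i, hi, hi'⟩ := List.getElem_of_mem hy
      refine ⟨⟨i, by rw [← hlen]; exact hi⟩, ?_⟩
      change z ∈ toF (x ⟨i, _⟩).1
      rw [mem_toF]
      change (L[i]).1.testBit z = true
      rw [hi']
      exact h
  · intro i
    right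
    exact conn_sound _ (hx1 i) (hall _ (hxL i)).1
  · intro i j
    by_cases hij : i = j
    · left; rw [hij]
    · right
      have hj := hall _ (hxL j)
      have hbit : (x j).1.testBit (⟨(x j).2, hx2 j⟩ : Fin 10) = true := by
        have := hj.2.1
        rw [tb_eq] at this
        exact this
      have hrem := toF_rem (x j).1 ⟨(x j).2, hx2 j⟩ hbit
      refine ⟨⟨(x j).2, hx2 j⟩, (mem_toF _ _).2 hbit, ?_, ?_⟩
      · rw [← hrem]
        rcases hj.2.2 with h | h
        · left
          change toF (rem (x j).1 (x j).2) = ∅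
          rw [h, toF_zero]
        · right
          exact conn_sound _ (rem_lt _ (hx1 j) (hx2 j)) h
      · rw [← hrem]
        change ∑ z ∈ toF (rem (x j).1 (x j).2), w z ≤ _
        by_cases h0 : rem (x j).1 (x j).2 = 0
        · rw [h0, toF_zero, sum_empty]
          exact sum_nonneg (fun z _ => hw z)
        · rw [sum_toF, sum_toF]
          apply spr_inj_claim w _ _ (hx1 i) (rem_lt _ (hx1 j) (hx2 j))
          apply hc
          rw [← h2, prs_mem]
          refine ⟨x j, hxL j, h0, x i, hxL i, ?_, rfl⟩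
          intro he
          have h5 := hand i j hij
          rw [he, Nat.and_self] at h5
          exact hne j h5

end Pool.Agent.Helper37.EF
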