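import Pool.Agent.Helper37.EF.Chk

namespace Pool.Agent.Helper37.EF
open Finset

lemma frc_eq {α : Type} (x : Nat) (f : Nat → α) : frc x f = f x := by
  cases x <;> rfl

lemma andb_true {x y : Bool} : andb x y = true ↔ x = true ∧ y = true := by
  cases x <;> cases y <;> simp [andb]

lemma orb_true {x y : Bool} : orb x y = true ↔ x = true ∨ y = true := by
  cases x <;> cases y <;> simp [orb]

/-! ### packed vectors -/

def pk (f : Fin 10 → ℕ) : ℕ := ∑ i, f i * 2048 ^ (i : ℕ)

def PN (n : ℕ) (f : ℕ → ℕ) : ℕ := ∑ i ∈ range n, f i * 2048 ^ i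

lemma PN_succ (n : ℕ) (f : ℕ → ℕ) : PN (n+1) f = f 0 + 2048 * PN n (fun i => f (i+1)) := by
  unfold PN
  rw [sum_range_succ', mul_sum]
  simp only [pow_zero, mul_one, pow_succ]
  rw [add_comm]
  congr 1
  apply sum_congr rfl
  intro i _
  ring

lemma PN_cmp : ∀ (n : ℕ) (l r : ℕ → ℕ) (D : ℕ), (∀ i < n, l i ≤ 1023) → (∀ i < n, r i ≤ 1023) →
    (∀ i < n, D / 2048 ^ i % 2048 < 1024) → PN n l = PN n r + D → ∀ i < n, r i ≤ l i := by
  intro n
  induction n with
  | zero => intro l r D _ _ _ _ i hi; omega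
  | succ n ih =>
    intro l r D hl hr hD heq i hi
    rw [PN_succ, PN_succ] at heq
    have h0 := hD 0 (by omega)
    have hl0 := hl 0 (by omega)
    have hr0 := hr 0 (by omega)
    simp only [pow_zero, Nat.div_one] at h0
    have h1 : r 0 ≤ l 0 := by omega
    have h2 : PN n (fun i => l (i+1)) = PN n (fun i => r (i+1)) + D / 2048 := by omega
    rcases i with _ | i
    · exact h1
    · refine ih (fun i => l (i+1)) (fun i => r (i+1)) (D / 2048) (fun j hj => hl _ (by omega))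
        (fun j hj => hr _ (by omega)) (fun j hj => ?_) h2 i (by omega)
      have := hD (j+1) (by omega)
      rw [pow_succ', ← Nat.div_div_eq_div_mul] at this
      exact this

def ext (f : Fin 10 → ℕ) : ℕ → ℕ := fun i => if h : i < 10 then f ⟨i, h⟩ else 0

lemma pk_eq_PN (f : Fin 10 → ℕ) : pk f = PN 10 (ext f) := by
  unfold pk PN
  rw [Finset.sum_range]
  apply sum_congr rfl
  intro i _
  simp [ext, i.2]

lemma pk_cmp (l r : Fin 10 → ℕ) (D : ℕ) (hl : ∀ i, l i ≤ 1023) (hr : ∀ i, r i ≤ 1023)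
    (hD : ∀ i < 10, D / 2048 ^ i % 2048 < 1024) (h : pk l = pk r + D) (i : Fin 10) : r i ≤ l i := by
  rw [pk_eq_PN, pk_eq_PN] at h
  have := PN_cmp 10 (ext l) (ext r) D (fun i hi => by simp [ext, hi, hl])
    (fun i hi => by simp [ext, hi, hr]) hD h i i.2
  simpa [ext, i.2] using this

lemma pk_inj (l r : Fin 10 → ℕ) (hl : ∀ i, l i ≤ 1023) (hr : ∀ i, r i ≤ 1023)
    (h : pk l = pk r) : l = r := by
  funext i
  apply le_antisymm
  · exact pk_cmp r l 0 hr hl (fun i _ => by simp) (by simp [h]) i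
  · exact pk_cmp l r 0 hl hr (fun i _ => by simp) (by simp [h]) i

lemma PN_lt (n : ℕ) : ∀ (f : ℕ → ℕ), (∀ i < n, f i ≤ 2047) → PN n f < 2048 ^ n := by
  induction n with
  | zero => intro f _; simp [PN]
  | succ n ih =>
    intro f hf
    rw [PN_succ, pow_succ']
    have := ih (fun i => f (i+1)) (fun i hi => hf _ (by omega))
    have h0 := hf 0 (by omega)
    omega

lemma pk_lt (f : Fin 10 → ℕ) (hf : ∀ i, f i ≤ 1023) : pk f < 2 ^ 110 := by
  rw [pk_eq_PN]
  have := PN_lt 10 (ext f) (fun i hi => by simp [ext, hi]; exact (hf _).trans (by norm_num))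
  calc _ < 2048 ^ 10 := this
    _ = 2 ^ 110 := by norm_num

lemma M110_eq : M110 = 2 ^ 110 - 1 := by decide +kernel
lemma M220_eq : M220 = 2 ^ 220 - 1 := by decide +kernel

lemma land_M110 (X : ℕ) : Nat.land X M110 = X % 2 ^ 110 := by
  rw [M110_eq]; exact Nat.and_two_pow_sub_one_eq_mod X 110

lemma land_M220 (X : ℕ) : Nat.land X M220 = X % 2 ^ 220 := by
  rw [M220_eq]; exact Nat.and_two_pow_sub_one_eq_mod X 220

lemma shr_eq (X k : ℕ) : Nat.shiftRight X k = X / 2 ^ k := Nat.shiftRight_eq_div_pow X k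

lemma mask_bit : ∀ i < 10, MASK.testBit (11 * i + 10) = true := by decide

lemma mask_dig (D : ℕ) (h : Nat.land D MASK = 0) : ∀ i < 10, D / 2048 ^ i % 2048 < 1024 := by
  intro i hi
  have h1 : (D &&& MASK).testBit (11 * i + 10) = false := by
    have : D &&& MASK = 0 := h
    rw [this]; simp
  rw [Nat.testBit_and, mask_bit i hi, Bool.and_true, Nat.testBit_eq_decide_div_mod_eq] at h1
  simp only [decide_eq_false_iff_not] at h1
  have h2 : D / 2 ^ (11 * i + 10) = D / 2048 ^ i / 1024 := by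
    rw [Nat.div_div_eq_div_mul, pow_add, pow_mul]; norm_num
  rw [h2] at h1
  omega

lemma chk_sound (X : ℕ) (l r : Fin 10 → ℕ) (hl : ∀ i, l i ≤ 1023) (hr : ∀ i, r i ≤ 1023)
    (hX : X = pk l + pk r * 2 ^ 110) (h : chk X = true) (i : Fin 10) : r i ≤ l i := by
  have hlt := pk_lt l hl
  have e1 : X % 2 ^ 110 = pk l := by rw [hX]; omega
  have e2 : X / 2 ^ 110 = pk r := by rw [hX]; omega
  unfold chk at h
  rw [andb_true, land_M110, shr_eq, e1, e2] at h
  obtain ⟨h1, h2⟩ := h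
  have h1' : pk r ≤ pk l := Nat.le_of_ble_eq_true h1
  have h2' := Nat.eq_of_beq_eq_true h2
  exact pk_cmp l r (pk l - pk r) hl hr (mask_dig _ h2') (by omega) i

/-! ### semantics -/

def ev (w : Fin 10 → ℝ) (f : Fin 10 → ℕ) : ℝ := ∑ i, (f i : ℝ) * w i

def B01 (f : Fin 10 → ℕ) : Prop := ∀ i, f i ≤ 1

/-- the entry `h` of the stack encodes a true inequality -/
def GE (w : Fin 10 → ℝ) (h : ℕ) : Prop :=
  ∃ a b : Fin 10 → ℕ, B01 a ∧ B01 b ∧ h = pk a + pk b * 2 ^ 110 ∧ ev w a ≤ ev w b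

/-- `c` encodes a pair -/
def Rp (c : ℕ) : Prop := ∃ p q : Fin 10 → ℕ, B01 p ∧ B01 q ∧ c = pk p + pk q * 2 ^ 110

/-- the claim encoded by `c` is true -/
def Cl (w : Fin 10 → ℝ) (c : ℕ) : Prop :=
  ∃ p q : Fin 10 → ℕ, B01 p ∧ B01 q ∧ c = pk p + pk q * 2 ^ 110 ∧ ev w q ≤ ev w p

def GH (w : Fin 10 → ℝ) (H : ℕ) : Prop := ∀ k, GE w (Nat.land (Nat.shiftRight H (Nat.mul 220 k)) M220)

lemma ev_mono (w : Fin 10 → ℝ) (hw : ∀ i, 0 ≤ w i) {f g : Fin 10 → ℕ} (h : ∀ i, f i ≤ g i) :
    ev w f ≤ ev w g := by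
  unfold ev
  apply sum_le_sum
  intro i _
  exact mul_le_mul_of_nonneg_right (by exact_mod_cast h i) (hw i)

lemma ev_add (w : Fin 10 → ℝ) (f g : Fin 10 → ℕ) (k : ℕ) :
    ev w (fun i => f i + k * g i) = ev w f + k * ev w g := by
  unfold ev
  rw [mul_sum, ← sum_add_distrib]
  apply sum_congr rfl
  intro i _
  push_cast
  ring

lemma pk_add (f g : Fin 10 → ℕ) (k : ℕ) : pk (fun i => f i + k * g i) = pk f + k * pk g := by
  unfold pk
  rw [mul_sum, ← sum_add_distrib]
  apply sum_congr rfl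
  intro i _
  ring

lemma pk_zero : pk (fun _ => 0) = 0 := by simp [pk]
lemma ev_zero (w : Fin 10 → ℝ) : ev w (fun _ => 0) = 0 := by simp [ev]

lemma GE_zero (w : Fin 10 → ℝ) : GE w 0 :=
  ⟨fun _ => 0, fun _ => 0, fun _ => by simp, fun _ => by simp, by simp [pk_zero], le_refl _⟩

lemma GE_lt {w : Fin 10 → ℝ} {h : ℕ} (hh : GE w h) : h < 2 ^ 220 := by
  obtain ⟨a, b, ha, hb, rfl, -⟩ := hh
  have h1 := pk_lt a (fun i => (ha i).trans (by norm_num))
  have h2 := pk_lt b (fun i => (hb i).trans (by norm_num))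
  have : (2:ℕ) ^ 220 = 2 ^ 110 * 2 ^ 110 := by norm_num
  nlinarith

lemma GH_zero (w : Fin 10 → ℝ) : GH w 0 := by
  intro k
  rw [shr_eq, land_M220]
  simpa using GE_zero w

lemma push_eq (H c : ℕ) (hc : c < 2 ^ 220) : push H c = H * 2 ^ 220 + c := by
  unfold push
  have : Nat.shiftLeft H 220 = H <<< 220 := rfl
  rw [this]
  change H <<< 220 ||| c = _
  rw [← Nat.shiftLeft_add_eq_or_of_lt hc, Nat.shiftLeft_eq]

lemma GH_push {w : Fin 10 → ℝ} {H c : ℕ} (hH : GH w H) (hc : GE w c) : GH w (push H c) := by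
  have hlt := GE_lt hc
  intro k
  rw [push_eq H c hlt, shr_eq, land_M220]
  rcases k with _ | k
  · simp only [Nat.mul_eq, mul_zero, pow_zero, Nat.div_one]
    rw [show (H * 2 ^ 220 + c) % 2 ^ 220 = c by omega]
    exact hc
  · have := hH k
    rw [shr_eq, land_M220] at this
    have e : (H * 2 ^ 220 + c) / 2 ^ (Nat.mul 220 (k+1)) = H / 2 ^ (Nat.mul 220 k) := by
      simp only [Nat.mul_eq]
      rw [mul_add, mul_one, add_comm (220 * k), pow_add, ← Nat.div_div_eq_div_mul]
      congr 1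
      omega
    rw [e]
    exact this

lemma far_zero (H : ℕ) (k : ℕ → Bool) (s X : ℕ) : far H k 0 s X = false := rfl

lemma far_succ (H : ℕ) (k : ℕ → Bool) (n s X : ℕ) : far H k (n+1) s X =
    Nat.rec (motive := fun _ => Bool)
        (andb (chk X) (k (Nat.shiftRight s 12)))
        (fun _ _ => far H k n (Nat.shiftRight s 12)
          (Nat.add X (Nat.mul (Nat.land s 63)
            (Nat.land (Nat.shiftRight H (Nat.mul 220 (Nat.land (Nat.shiftRight s 6) 63))) M220))))
        (Nat.land s 4095) := rfl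

lemma land63 (s : ℕ) : Nat.land s 63 ≤ 63 := by
  have : Nat.land s 63 = s &&& 63 := rfl
  rw [this]; exact Nat.and_le_right

lemma far_sound (w : Fin 10 → ℝ) (hw : ∀ i, 0 ≤ w i) (H : ℕ) (hH : GH w H) (k : ℕ → Bool) :
    ∀ (n s X S : ℕ) (l r : Fin 10 → ℕ), (∀ i, l i ≤ S) → (∀ i, r i ≤ S) → S + 63 * n ≤ 1023 →
      X = pk l + pk r * 2 ^ 110 → far H k n s X = true → (∃ s', k s' = true) ∧ ev w r ≤ ev w l := by
  intro n
  induction n with
  | zero => intro s X S l r _ _ _ _ h; rw [far_zero] at h; exact absurd h (by simp)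
  | succ n ih =>
    intro s X S l r hl hr hS hX h
    rw [far_succ] at h
    revert h
    cases hs : Nat.land s 4095 with
    | zero =>
      intro h
      have h' : andb (chk X) (k (Nat.shiftRight s 12)) = true := h
      rw [andb_true] at h'
      refine ⟨⟨_, h'.2⟩, ev_mono w hw (chk_sound X l r (fun i => (hl i).trans (by omega))
        (fun i => (hr i).trans (by omega)) hX h'.1)⟩
    | succ m =>
      intro h
      have h' : far H k n (Nat.shiftRight s 12)
          (Nat.add X (Nat.mul (Nat.land s 63)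
            (Nat.land (Nat.shiftRight H (Nat.mul 220 (Nat.land (Nat.shiftRight s 6) 63))) M220))) = true := h
      set lam := Nat.land s 63 with hlam
      have hlam' : lam ≤ 63 := land63 s
      obtain ⟨a, b, ha, hb, he, hab⟩ := hH (Nat.land (Nat.shiftRight s 6) 63)
      rw [he] at h'
      obtain ⟨h1, h2⟩ := ih _ _ (S + 63) (fun i => l i + lam * a i) (fun i => r i + lam * b i)
        (fun i => by have := hl i; have := ha i; nlinarith)
        (fun i => by have := hr i; have := hb i; nlinarith) (by omega) (by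
          rw [pk_add, pk_add, hX]
          simp only [Nat.add_eq, Nat.mul_eq]
          ring) h'
      refine ⟨h1, ?_⟩
      rw [ev_add, ev_add] at h2
      have : (lam : ℝ) * ev w a ≤ lam * ev w b := mul_le_mul_of_nonneg_left hab (by positivity)
      linarith

lemma step_nil (H : ℕ) (k : ℕ → List ℕ → ℕ → Bool) (fin : Bool) (s : ℕ) : step H k fin [] s = fin := rfl

lemma step_cons (H : ℕ) (k : ℕ → List ℕ → ℕ → Bool) (fin : Bool) (c : ℕ) (rest : List ℕ) (s : ℕ) :
    step H k fin (c :: rest) s = Nat.rec (motive := fun _ => Bool) (k c rest (Nat.shiftRight s 6))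
      (fun _ _ => far H (step H k fin rest) 15 (Nat.shiftRight s 6) (Nat.mul (Nat.land s 63) c))
      (Nat.land s 63) := rfl


end Pool.Agent.Helper37.EF
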