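import Pool.Agent.Helper37.EF.Snd

namespace Pool.Agent.Helper37.EF
open Finset

lemma step_sound (w : Fin 10 → ℝ) (hw : ∀ i, 0 ≤ w i) (H : ℕ) (hH : GH w H)
    (k : ℕ → List ℕ → ℕ → Bool) (fin : Bool) (Q : Prop)
    (hk : ∀ c rest s', Rp c → (∀ c' ∈ rest, Rp c') → k c rest s' = true →
      Q ∨ (Cl w c ∧ ∀ c' ∈ rest, Cl w c')) :
    ∀ (ps : List ℕ) (s : ℕ), (∀ c ∈ ps, Rp c) → step H k fin ps s = true →
    Q ∨ (∀ c ∈ ps, Cl w c) := by
  intro ps
  induction ps with
  | nil => intro s _ _; right; simp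
  | cons c rest ih =>
    intro s hps h
    rw [step_cons] at h
    have hc : Rp c := hps c (by simp)
    have hrest : ∀ c' ∈ rest, Rp c' := fun c' h' => hps c' (by simp [h'])
    revert h
    cases hs : Nat.land s 63 with
    | zero =>
      intro h
      rcases hk c rest _ hc hrest h with h1 | h1
      · exact Or.inl h1
      · right
        intro c' h'
        rcases List.mem_cons.1 h' with h' | h'
        · rw [h']; exact h1.1
        · exact h1.2 c' h'
    | succ m =>
      intro h
      have h' : far H (step H k fin rest) 15 (Nat.shiftRight s 6) (Nat.mul (m+1) c) = true := by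
        exact h
      have hm : m + 1 ≤ 63 := by rw [← hs]; exact land63 s
      obtain ⟨p, q, hp, hq, hc'⟩ := hc
      obtain ⟨⟨s', h1⟩, h2⟩ := far_sound w hw H hH (step H k fin rest) 15 _ _ 63
        (fun i => 0 + (m+1) * p i) (fun i => 0 + (m+1) * q i)
        (fun i => by have := hp i; nlinarith) (fun i => by have := hq i; nlinarith) (by norm_num)
        (by
          rw [pk_add (fun _ => 0), pk_add (fun _ => 0), hc', pk_zero]
          simp only [Nat.mul_eq]
          ring) h'
      rw [ev_add w (fun _ => 0), ev_add w (fun _ => 0), ev_zero] at h2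
      have hcl : Cl w c := by
        refine ⟨p, q, hp, hq, hc', ?_⟩
        have hpos : (0:ℝ) < ((m+1 : ℕ) : ℝ) := by positivity
        have : ((m+1 : ℕ) : ℝ) * ev w q ≤ ((m+1 : ℕ) : ℝ) * ev w p := by linarith
        exact le_of_mul_le_mul_left this hpos
      rcases ih s' hrest h1 with h3 | h3
      · exact Or.inl h3
      · right
        intro c' h'
        rcases List.mem_cons.1 h' with h' | h'
        · rw [h']; exact hcl
        · exact h3 c' h'

lemma run_n {K : ℕ} (H : ℕ) (ps : List ℕ) (s : ℕ) :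
    run (T.n : T K) H ps s = step H (fun _ _ _ => false) true ps s := rfl

lemma run_c {K : ℕ} (a : Al K) (s0 : ℕ) (kids sib : T K) (H : ℕ) (ps : List ℕ) (s : ℕ) :
    run (T.c a s0 kids sib) H ps s = step H (fun c rest s1 =>
      andb (frc (push H c) fun H' => run kids H' a.ps s0)
        (frc (push H (swp c)) fun H' => run sib H' rest s1)) false ps s := rfl

lemma swp_eq (p q : Fin 10 → ℕ) (hp : B01 p) (hq : B01 q) :
    swp (pk p + pk q * 2 ^ 110) = pk q + pk p * 2 ^ 110 := by
  have h1 := pk_lt p (fun i => (hp i).trans (by norm_num))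
  have h2 := pk_lt q (fun i => (hq i).trans (by norm_num))
  unfold swp
  rw [land_M110, shr_eq]
  have e1 : (pk p + pk q * 2 ^ 110) % 2 ^ 110 = pk p := by omega
  have e2 : (pk p + pk q * 2 ^ 110) / 2 ^ 110 = pk q := by omega
  rw [e1, e2]
  change (pk p) <<< 110 ||| pk q = _
  rw [← Nat.shiftLeft_add_eq_or_of_lt h2, Nat.shiftLeft_eq]
  ring

lemma run_sound {K : ℕ} (w : Fin 10 → ℝ) (hw : ∀ i, 0 ≤ w i) (Q : Prop)
    (hQ : ∀ a : Al K, (∀ c ∈ a.ps, Cl w c) → Q) (hR : ∀ a : Al K, ∀ c ∈ a.ps, Rp c) :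
    ∀ (t : T K) (H : ℕ) (ps : List ℕ) (s : ℕ), GH w H → (∀ c ∈ ps, Rp c) →
    run t H ps s = true → Q ∨ (∀ c ∈ ps, Cl w c) := by
  intro t
  induction t with
  | n =>
    intro H ps s hH hps h
    rw [run_n] at h
    exact step_sound w hw H hH _ _ Q (fun _ _ _ _ _ h => by simp at h) ps s hps h
  | c a s0 kids sib ihk ihs =>
    intro H ps s hH hps h
    rw [run_c] at h
    refine step_sound w hw H hH _ _ Q ?_ ps s hps h
    intro c rest s' hc hrest hk
    obtain ⟨p, q, hp, hq, rfl⟩ := hc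
    rw [andb_true, frc_eq, frc_eq] at hk
    rcases le_total (ev w p) (ev w q) with hle | hle
    · left
      rcases ihk _ a.ps s0 (GH_push hH ⟨p, q, hp, hq, rfl, hle⟩) (hR a) hk.1 with h1 | h1
      · exact h1
      · exact hQ a h1
    · rcases ihs _ rest s' (GH_push hH (c := swp _) ⟨q, p, hq, hp, swp_eq p q hp hq, hle⟩) hrest hk.2 with h1 | h1
      · exact Or.inl h1
      · exact Or.inr ⟨⟨p, q, hp, hq, rfl, hle⟩, h1⟩

lemma top_sound {K : ℕ} (w : Fin 10 → ℝ) (hw : ∀ i, 0 ≤ w i) (Q : Prop)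
    (hQ : ∀ a : Al K, (∀ c ∈ a.ps, Cl w c) → Q) (hR : ∀ a : Al K, ∀ c ∈ a.ps, Rp c)
    (hH : GH w H0) (t : T K) (h : top t = true) : Q := by
  cases t with
  | n => exact absurd h (by simp [top])
  | c a s kids sib =>
    have h' : run kids H0 a.ps s = true := h
    rcases run_sound w hw Q hQ hR kids H0 a.ps s hH (hR a) h' with h1 | h1
    · exact h1
    · exact hQ a h1


end Pool.Agent.Helper37.EF
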