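import Pool.Agent.Helper37.EF.Snd2

namespace Pool.Agent.Helper37.EF
open Finset

/-! ### masks -/

def bt (m : ℕ) : Fin 10 → ℕ := fun i => (m.testBit i).toNat

lemma bt_B01 (m : ℕ) : B01 (bt m) := fun i => by
  unfold bt; cases m.testBit i <;> simp

def spr' (m : ℕ) : ℕ := (m / 2^0 % 2) * 2048^0 + (m / 2^1 % 2) * 2048^1 + (m / 2^2 % 2) * 2048^2 + (m / 2^3 % 2) * 2048^3
  + (m / 2^4 % 2) * 2048^4 + (m / 2^5 % 2) * 2048^5 + (m / 2^6 % 2) * 2048^6 + (m / 2^7 % 2) * 2048^7
  + (m / 2^8 % 2) * 2048^8 + (m / 2^9 % 2) * 2048^9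

lemma spr_table : (List.range 1024).all (fun m => Nat.beq (spr m) (spr' m)) = true := by
  decide +kernel

lemma spr_eq (m : ℕ) (hm : m < 1024) : spr m = pk (bt m) := by
  have h := spr_table
  rw [List.all_eq_true] at h
  have h1 := Nat.eq_of_beq_eq_true (h m (List.mem_range.2 hm))
  rw [h1, pk, spr']
  unfold bt
  rw [Fin.sum_univ_eq_sum_range (fun i => (m.testBit i).toNat * 2048 ^ i) 10]
  simp only [Finset.sum_range_succ, Finset.sum_range_zero, zero_add, Nat.toNat_testBit]

lemma spr_inj_claim (w : Fin 10 → ℝ) (B R : ℕ) (hB : B < 1024) (hR : R < 1024)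
    (h : Cl w (Nat.add (spr B) (Nat.shiftLeft (spr R) 110))) : ev w (bt R) ≤ ev w (bt B) := by
  obtain ⟨p, q, hp, hq, he, hle⟩ := h
  have e1 : Nat.shiftLeft (spr R) 110 = spr R * 2 ^ 110 := Nat.shiftLeft_eq _ _
  rw [e1, spr_eq B hB, spr_eq R hR, Nat.add_eq] at he
  have h1 := pk_lt p (fun i => (hp i).trans (by norm_num))
  have h2 := pk_lt (bt B) (fun i => (bt_B01 B i).trans (by norm_num))
  have e3 : pk (bt B) = pk p := by omega
  have e4 : pk (bt R) = pk q := by omega
  have e5 := pk_inj _ _ (fun i => (bt_B01 B i).trans (by norm_num)) (fun i => (hp i).trans (by norm_num)) e3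
  have e6 := pk_inj _ _ (fun i => (bt_B01 R i).trans (by norm_num)) (fun i => (hq i).trans (by norm_num)) e4
  rw [e5, e6]
  exact hle

lemma Rp_spr (B R : ℕ) (hB : B < 1024) (hR : R < 1024) :
    Rp (Nat.add (spr B) (Nat.shiftLeft (spr R) 110)) := by
  refine ⟨bt B, bt R, bt_B01 B, bt_B01 R, ?_⟩
  have e1 : Nat.shiftLeft (spr R) 110 = spr R * 2 ^ 110 := Nat.shiftLeft_eq _ _
  rw [e1, spr_eq B hB, spr_eq R hR, Nat.add_eq]

lemma GE_frm (w : Fin 10 → ℝ) (P N : ℕ) (hP : P < 1024) (hN : N < 1024)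
    (h : ev w (bt P) ≤ ev w (bt N)) : GE w (frm P N) := by
  refine ⟨bt P, bt N, bt_B01 P, bt_B01 N, ?_, h⟩
  unfold frm
  rw [spr_eq P hP, spr_eq N hN]
  change (pk (bt N)) <<< 110 ||| pk (bt P) = _
  rw [← Nat.shiftLeft_add_eq_or_of_lt (pk_lt (bt P) (fun i => (bt_B01 P i).trans (by norm_num))),
    Nat.shiftLeft_eq]
  ring

/-! ### allocations -/

/-- list of parts -/
def pl : ℕ → ℕ → List (ℕ × ℕ)
  | 0, _ => []
  | k+1, s => (Nat.land s 1023, Nat.land (Nat.shiftRight s 10) 63) :: pl k (Nat.shiftRight s 16)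

lemma pl_len : ∀ k s, (pl k s).length = k := by
  intro k
  induction k with
  | zero => intro s; rfl
  | succ k ih => intro s; simp [pl, ih]

def VL : List (ℕ × ℕ) → ℕ → Prop
  | [], acc => acc = 1023
  | x :: t, acc => acc &&& x.1 = 0 ∧ tb CONN x.1 = true ∧ tb x.1 x.2 = true ∧
      (rem x.1 x.2 = 0 ∨ tb CONN (rem x.1 x.2) = true) ∧ VL t (acc ||| x.1)

lemma valid_succ (K s acc : ℕ) : valid (K+1) s acc = 
    (frc (Nat.land s 1023) fun A => frc (Nat.land (Nat.shiftRight s 10) 63) fun o =>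
      andb (Nat.beq (Nat.land acc A) 0) (andb (tb CONN A) (andb (tb A o) (andb
      (frc (rem A o) fun R => orb (Nat.beq R 0) (tb CONN R))
        (frc (Nat.lor acc A) fun acc' => valid K (Nat.shiftRight s 16) acc'))))) := rfl

lemma valid_sound : ∀ (K s acc : ℕ), valid K s acc = true → VL (pl K s) acc := by
  intro K
  induction K with
  | zero => intro s acc h; exact Nat.eq_of_beq_eq_true h
  | succ K ih =>
    intro s acc h
    rw [valid_succ] at h
    simp only [frc_eq, andb_true, orb_true] at h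
    obtain ⟨h1, h2, h3, h4, h5⟩ := h
    refine ⟨Nat.eq_of_beq_eq_true h1, h2, h3, ?_, ih _ _ h5⟩
    rcases h4 with h4 | h4
    · exact Or.inl (Nat.eq_of_beq_eq_true h4)
    · exact Or.inr h4

lemma row_succ (K s A R : ℕ) (tl : List ℕ) : row (K+1) s A R tl =
    (frc (Nat.land s 1023) fun B =>
      Bool.rec (motive := fun _ => List Nat) (frc (Nat.add (spr B) R) fun c => c :: row K (Nat.shiftRight s 16) A R tl)
       (row K (Nat.shiftRight s 16) A R tl) (Nat.beq B A)) := rfl

lemma row_mem : ∀ (K s A R : ℕ) (tl : List ℕ) (c : ℕ), c ∈ row K s A R tl ↔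
    (∃ x ∈ pl K s, x.1 ≠ A ∧ c = Nat.add (spr x.1) R) ∨ c ∈ tl := by
  intro K
  induction K with
  | zero => intro s A R tl c; simp [row, pl]
  | succ K ih =>
    intro s A R tl c
    rw [row_succ]
    simp only [frc_eq, pl, List.mem_cons, exists_eq_or_imp]
    cases hb : Nat.beq (Nat.land s 1023) A with
    | true =>
      have : Nat.land s 1023 = A := Nat.eq_of_beq_eq_true hb
      change c ∈ row K (Nat.shiftRight s 16) A R tl ↔ _
      rw [ih]
      constructor
      · rintro (h | h)
        · exact Or.inl (Or.inr h)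
        · exact Or.inr h
      · rintro ((⟨h, _⟩ | h) | h)
        · exact absurd this h
        · exact Or.inl h
        · exact Or.inr h
    | false =>
      have hne : Nat.land s 1023 ≠ A := fun he => by rw [he] at hb; simp at hb
      change c ∈ Nat.add (spr (Nat.land s 1023)) R :: row K (Nat.shiftRight s 16) A R tl ↔ _
      rw [List.mem_cons, ih]
      constructor
      · rintro (h | h | h)
        · exact Or.inl (Or.inl ⟨hne, h⟩)
        · exact Or.inl (Or.inr h)
        · exact Or.inr h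
      · rintro ((⟨_, h⟩ | h) | h)
        · exact Or.inl h
        · exact Or.inr (Or.inl h)
        · exact Or.inr (Or.inr h)

lemma prs_succ (K0 s0 K s : ℕ) : prs K0 s0 (K+1) s =
    (frc (Nat.land s 1023) fun A => frc (rem A (Nat.land (Nat.shiftRight s 10) 63)) fun R =>
      Bool.rec (motive := fun _ => List Nat)
       (frc (Nat.shiftLeft (spr R) 110) fun R' => row K0 s0 A R' (prs K0 s0 K (Nat.shiftRight s 16)))
       (prs K0 s0 K (Nat.shiftRight s 16)) (Nat.beq R 0)) := rfl

lemma prs_mem (K0 s0 : ℕ) : ∀ (K s c : ℕ), c ∈ prs K0 s0 K s ↔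
    ∃ y ∈ pl K s, rem y.1 y.2 ≠ 0 ∧ ∃ x ∈ pl K0 s0, x.1 ≠ y.1 ∧
      c = Nat.add (spr x.1) (Nat.shiftLeft (spr (rem y.1 y.2)) 110) := by
  intro K
  induction K with
  | zero => intro s c; simp [prs, pl]
  | succ K ih =>
    intro s c
    rw [prs_succ]
    simp only [frc_eq, pl, List.mem_cons, exists_eq_or_imp]
    cases hb : Nat.beq (rem (Nat.land s 1023) (Nat.land (Nat.shiftRight s 10) 63)) 0 with
    | true =>
      have h0 := Nat.eq_of_beq_eq_true hb
      change c ∈ prs K0 s0 K (Nat.shiftRight s 16) ↔ _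
      rw [ih]
      constructor
      · intro h; exact Or.inr h
      · rintro (⟨h, _⟩ | h)
        · exact absurd h0 h
        · exact h
    | false =>
      have hne : rem (Nat.land s 1023) (Nat.land (Nat.shiftRight s 10) 63) ≠ 0 :=
        fun he => by rw [he] at hb; simp at hb
      change c ∈ row K0 s0 _ _ (prs K0 s0 K (Nat.shiftRight s 16)) ↔ _
      rw [row_mem, ih]
      constructor
      · rintro (h | h)
        · exact Or.inl ⟨hne, h⟩
        · exact Or.inr h
      · rintro (⟨_, h⟩ | h)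
        · exact Or.inl h
        · exact Or.inr h

lemma eqL_sound : ∀ (l m : List ℕ), eqL l m = true → l = m := by
  intro l
  induction l with
  | nil => intro m h; cases m with
    | nil => rfl
    | cons b m => exact absurd h (by simp [eqL])
  | cons a l ih => intro m h; cases m with
    | nil => exact absurd h (by simp [eqL])
    | cons b m =>
      have h' : andb (Nat.beq a b) (eqL l m) = true := h
      rw [andb_true] at h'
      rw [Nat.eq_of_beq_eq_true h'.1, ih m h'.2]

end Pool.Agent.Helper37.EF
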