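import Pool.Agent.Helper37.EF.Gr

namespace Pool.Agent.Helper37.EF
open Finset

/-! ### symmetry -/

lemma Cn_map (σ : Equiv.Perm (Fin 10)) (hσ : ∀ i j, G.Adj i j → G.Adj (σ i) (σ j))
    (S : Finset (Fin 10)) (h : Cn S) : Cn (S.map σ.toEmbedding) := by
  unfold Cn at *
  have hmaps : Set.MapsTo σ (S : Set (Fin 10)) ((S.map σ.toEmbedding : Finset (Fin 10)) : Set (Fin 10)) := by
    intro x hx
    simp only [coe_map, Equiv.coe_toEmbedding]
    exact ⟨x, hx, rfl⟩
  let f : G →g G := ⟨σ, fun {a b} h => hσ a b h⟩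
  refine SimpleGraph.Connected.map (SimpleGraph.induceHom f hmaps) ?_ h
  rintro ⟨y, hy⟩
  simp only [coe_map, Equiv.coe_toEmbedding] at hy
  obtain ⟨x, hx, hxy⟩ := hy
  exact ⟨⟨x, hx⟩, Subtype.ext hxy⟩

lemma good_perm (σ : Equiv.Perm (Fin 10)) (hσ : ∀ i j, G.Adj i j → G.Adj (σ i) (σ j)) (n : ℕ)
    (w : Fin 10 → ℝ) (h : Good n (fun i => w (σ i))) : Good n w := by
  obtain ⟨A, h1, h2, h3, h4⟩ := h
  refine ⟨fun i => (A i).map σ.toEmbedding, ?_, ?_, ?_, ?_⟩
  · intro i j hij
    rw [disjoint_map]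
    exact h1 i j hij
  · intro x
    obtain ⟨i, hi⟩ := h2 (σ.symm x)
    exact ⟨i, by rw [mem_map]; exact ⟨σ.symm x, hi, by simp⟩⟩
  · intro i
    rcases h3 i with h | h
    · left
      change (A i).map σ.toEmbedding = ∅
      rw [h, map_empty]
    · right; exact Cn_map σ hσ _ h
  · intro i j
    rcases h4 i j with h | ⟨o, ho, h5, h6⟩
    · left
      rw [sum_map, sum_map]
      exact h
    · right
      refine ⟨σ o, by rw [mem_map]; exact ⟨o, ho, rfl⟩, ?_, ?_⟩
      · have e : ((A j).map σ.toEmbedding).erase (σ o) = ((A j).erase o).map σ.toEmbedding := by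
          rw [map_erase]; rfl
        rw [e]
        rcases h5 with h5 | h5
        · left; rw [h5, map_empty]
        · right; exact Cn_map σ hσ _ h5
      · have e : ((A j).map σ.toEmbedding).erase (σ o) = ((A j).erase o).map σ.toEmbedding := by
          rw [map_erase]; rfl
        rw [e, sum_map, sum_map]
        exact h6

def pm (f : Fin 10 → Fin 10) (h : ∀ i, f (f i) = i) : Equiv.Perm (Fin 10) := ⟨f, f, h, h⟩

def f04 : Fin 10 → Fin 10 := ![4,1,2,3,0,5,6,7,8,9]
def f36 : Fin 10 → Fin 10 := ![0,1,2,6,4,5,3,7,8,9]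
def f19 : Fin 10 → Fin 10 := ![0,9,2,3,4,5,6,7,8,1]
def f25 : Fin 10 → Fin 10 := ![0,1,5,3,4,2,6,7,8,9]
def fsw : Fin 10 → Fin 10 := ![3,2,1,0,6,9,4,7,8,5]

lemma i04 : ∀ i, f04 (f04 i) = i := by decide
lemma i36 : ∀ i, f36 (f36 i) = i := by decide
lemma i19 : ∀ i, f19 (f19 i) = i := by decide
lemma i25 : ∀ i, f25 (f25 i) = i := by decide
lemma isw : ∀ i, fsw (fsw i) = i := by decide
lemma a04 : ∀ i j, G.Adj i j → G.Adj (f04 i) (f04 j) := by decide
lemma a36 : ∀ i j, G.Adj i j → G.Adj (f36 i) (f36 j) := by decide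
lemma a19 : ∀ i j, G.Adj i j → G.Adj (f19 i) (f19 j) := by decide
lemma a25 : ∀ i j, G.Adj i j → G.Adj (f25 i) (f25 j) := by decide
lemma asw : ∀ i j, G.Adj i j → G.Adj (fsw i) (fsw j) := by decide

lemma good_f (f : Fin 10 → Fin 10) (hf : ∀ i, f (f i) = i) (ha : ∀ i j, G.Adj i j → G.Adj (f i) (f j))
    (n : ℕ) (w : Fin 10 → ℝ) (h : Good n (fun i => w (f i))) : Good n w :=
  good_perm (pm f hf) ha n w h

theorem wlog_sorted (n : ℕ) (h : ∀ w : Fin 10 → ℝ, (∀ i, 0 ≤ w i) → w 0 ≤ w 4 → w 3 ≤ w 6 → w 1 ≤ w 9 →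
    w 2 ≤ w 5 → w 4 ≤ w 6 → Good n w) : ∀ w : Fin 10 → ℝ, (∀ i, 0 ≤ w i) → Good n w := by
  have h1 : ∀ w : Fin 10 → ℝ, (∀ i, 0 ≤ w i) → w 0 ≤ w 4 → w 3 ≤ w 6 → w 1 ≤ w 9 →
    w 2 ≤ w 5 → Good n w := by
    intro w hw a b c d
    rcases le_total (w 4) (w 6) with e | e
    · exact h w hw a b c d e
    · exact good_f fsw isw asw n w (h _ (fun i => hw _) b a d c e)
  have h2 : ∀ w : Fin 10 → ℝ, (∀ i, 0 ≤ w i) → w 0 ≤ w 4 → w 3 ≤ w 6 → w 1 ≤ w 9 → Good n w := by
    intro w hw a b c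
    rcases le_total (w 2) (w 5) with e | e
    · exact h1 w hw a b c e
    · exact good_f f25 i25 a25 n w (h1 _ (fun i => hw _) a b c e)
  have h3 : ∀ w : Fin 10 → ℝ, (∀ i, 0 ≤ w i) → w 0 ≤ w 4 → w 3 ≤ w 6 → Good n w := by
    intro w hw a b
    rcases le_total (w 1) (w 9) with e | e
    · exact h2 w hw a b e
    · exact good_f f19 i19 a19 n w (h2 _ (fun i => hw _) a b e)
  have h4 : ∀ w : Fin 10 → ℝ, (∀ i, 0 ≤ w i) → w 0 ≤ w 4 → Good n w := by
    intro w hw a
    rcases le_total (w 3) (w 6) with e | e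
    · exact h3 w hw a e
    · exact good_f f36 i36 a36 n w (h3 _ (fun i => hw _) a e)
  intro w hw
  rcases le_total (w 0) (w 4) with e | e
  · exact h4 w hw e
  · exact good_f f04 i04 a04 n w (h4 _ (fun i => hw _) e)

lemma ev_bt_pow (w : Fin 10 → ℝ) (i : Fin 10) : ev w (bt (2 ^ (i : ℕ))) = w i := by
  unfold ev bt
  rw [Finset.sum_eq_single i]
  · simp [Nat.testBit_two_pow]
  · intro j _ hj
    have : ¬ ((i : ℕ) = (j : ℕ)) := fun h => hj (Fin.ext h.symm)
    simp [Nat.testBit_two_pow, this]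
  · simp

lemma GH_H0 (w : Fin 10 → ℝ) (a : w 0 ≤ w 4) (b : w 3 ≤ w 6) (c : w 1 ≤ w 9) (d : w 2 ≤ w 5)
    (e : w 4 ≤ w 6) : GH w H0 := by
  have key : ∀ i j : Fin 10, w i ≤ w j → GE w (frm (2 ^ (i : ℕ)) (2 ^ (j : ℕ))) := by
    intro i j hij
    have hi : (2:ℕ) ^ (i : ℕ) < 1024 := by
      calc (2:ℕ) ^ (i : ℕ) < 2 ^ 10 := Nat.pow_lt_pow_right (by norm_num) i.2
        _ = 1024 := by norm_num
    have hj : (2:ℕ) ^ (j : ℕ) < 1024 := by
      calc (2:ℕ) ^ (j : ℕ) < 2 ^ 10 := Nat.pow_lt_pow_right (by norm_num) j.2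
        _ = 1024 := by norm_num
    apply GE_frm w _ _ hi hj
    rw [ev_bt_pow, ev_bt_pow]
    exact hij
  unfold H0
  exact GH_push (GH_push (GH_push (GH_push (GH_push (GH_zero w) (key 0 4 a)) (key 3 6 b)) (key 1 9 c))
    (key 2 5 d)) (key 4 6 e)

theorem good_of_cert {K : ℕ} (t : T K) (ht : top t = true) (w : Fin 10 → ℝ) (hw : ∀ i, 0 ≤ w i) :
    Good K w := by
  revert w
  apply wlog_sorted
  intro w hw a b c d e
  exact top_sound w hw (Good K w) (fun al hc => al_good al w hw hc) al_R (GH_H0 w a b c d e) t ht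

/-! ### small and large numbers of agents -/

lemma toF_univ : toF 1023 = univ := by decide

lemma Cn_univ : Cn univ := by
  rw [← toF_univ]
  exact conn_sound 1023 (by norm_num) (by decide +kernel)

theorem good_one (w : Fin 10 → ℝ) : Good 1 w := by
  refine ⟨fun _ => univ, ?_, ?_, ?_, ?_⟩
  · intro i j hij
    exact absurd (Subsingleton.elim i j) hij
  · intro x; exact ⟨0, by simp⟩
  · intro i; right; exact Cn_univ
  · intro i j; left; exact le_refl _

theorem good_large (n : ℕ) (hn : 10 ≤ n) (w : Fin 10 → ℝ) (hw : ∀ i, 0 ≤ w i) : Good n w := by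
  refine ⟨fun i => if h : (i : ℕ) < 10 then {⟨i, h⟩} else ∅, ?_, ?_, ?_, ?_⟩
  · intro i j hij
    by_cases hi : (i : ℕ) < 10
    · by_cases hj : (j : ℕ) < 10
      · simp only [hi, hj, dif_pos, disjoint_singleton]
        intro he
        exact hij (Fin.ext (by simpa using he))
      · simp [hj]
    · simp [hi]
  · intro x
    refine ⟨⟨x, by omega⟩, ?_⟩
    simp
  · intro i
    by_cases hi : (i : ℕ) < 10
    · right
      simp only [hi, dif_pos]
      exact Cn_singleton _
    · left; simp [hi]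
  · intro i j
    by_cases hj : (j : ℕ) < 10
    · right
      refine ⟨⟨j, hj⟩, by simp [hj], Or.inl (by simp [hj]), ?_⟩
      simp only [hj, dif_pos, erase_singleton, sum_empty]
      exact sum_nonneg (fun z _ => hw z)
    · left
      simp only [hj, dif_neg, not_false_eq_true, sum_empty]
      exact sum_nonneg (fun z _ => hw z)

/-! ### no Hamiltonian path -/

def extp : ℕ → Fin 10 → ℕ → Bool
  | 0, _, _ => true
  | f+1, x, vis => (List.finRange 10).any fun y =>
      (adjm x).testBit y && !(vis.testBit y) && extp f y (vis ||| 2 ^ (y : ℕ))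

lemma extp_table : (List.finRange 10).all (fun x => !(extp 9 x (2 ^ (x : ℕ)))) = true := by
  decide +kernel

lemma extp_sound : ∀ (l : List (Fin 10)) (x : Fin 10) (vis : ℕ), (x :: l).IsChain G.Adj → (x :: l).Nodup →
    (∀ y ∈ l, vis.testBit y = false) → extp l.length x vis = true := by
  intro l
  induction l with
  | nil => intro x vis _ _ _; rfl
  | cons y l ih =>
    intro x vis hc hn hv
    rw [List.length_cons, extp, List.any_eq_true]
    rw [List.isChain_cons_cons] at hc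
    refine ⟨y, List.mem_finRange y, ?_⟩
    have h1 : (adjm x).testBit y = true := hc.1
    have h2 : vis.testBit y = false := hv y (by simp)
    rw [h1, h2]
    simp only [Bool.not_false, Bool.and_self, Bool.true_and]
    apply ih y _ hc.2 (List.Nodup.of_cons hn)
    intro z hz
    rw [Nat.testBit_or, hv z (by simp [hz]), Nat.testBit_two_pow]
    have hyz : y ≠ z := by
      intro he
      have := (List.nodup_cons.1 (List.Nodup.of_cons hn)).1
      exact this (he ▸ hz)
    have : ¬ ((y : ℕ) = (z : ℕ)) := fun h => hyz (Fin.ext h)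
    simp [this]

theorem not_traceable : ¬ ∃ (a b : Fin 10) (p : G.Walk a b), p.IsHamiltonian := by
  rintro ⟨a, b, p, hp⟩
  have hchain := p.isChain_adj_support
  have hnod : p.support.Nodup := hp.isPath.support_nodup
  have hlen : p.support.length = 10 := by
    rw [hp.length_support]; rfl
  obtain ⟨l, hl⟩ : ∃ l, p.support = a :: l := ⟨p.support.tail, by simp⟩
  rw [hl] at hchain hnod hlen
  have hl9 : l.length = 9 := by simpa using hlen
  have h := extp_sound l a (2 ^ (a : ℕ)) hchain hnod (fun y hy => by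
    rw [Nat.testBit_two_pow]
    have hay : a ≠ y := fun he => (List.nodup_cons.1 hnod).1 (he ▸ hy)
    have : ¬ ((a : ℕ) = (y : ℕ)) := fun h => hay (Fin.ext h)
    simp [this])
  rw [hl9] at h
  have ht := extp_table
  rw [List.all_eq_true] at ht
  have := ht a (List.mem_finRange a)
  rw [h] at this
  simp at this

lemma G_connected : G.Connected := by
  have h := Cn_univ
  unfold Cn at h
  rw [coe_univ] at h
  exact h.map (SimpleGraph.Embedding.induce (G := G) Set.univ).toHom (fun x => ⟨⟨x, trivial⟩, rfl⟩)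

end Pool.Agent.Helper37.EF
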